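import Pool.Agent.Lib.DT.F4.Iso

/-!
# Theorem DT, part F: the isogeny `𝔭` in the parameter `T`: integrality and `T' = T³` modulo `3`
-/

set_option autoImplicit false

namespace DT.F4

open PowerSeries DI.F4

section mod

variable {B : Type} [CommRing B]

theorem mod_three (h3 : (3 : B) = 0) {x w v a s c i m n1 n2 d e : B} (hi : a * i = 1)
    (hs : s = a + 6) (hc : s ^ 3 * c = a ^ 2 + 3 * a + 9) (hw : w = 1 + x * w * (1 + c * v))
    (hv : v = x ^ 2 * w) (hm : m = 2 - x * (1 + c * v))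
    (hn1 : n1 = s ^ 2 + 3 * (a + 3) * v + 3 * s * c * v ^ 2)
    (hn2 : n2 = s + s ^ 2 * c * v + (2 * a + 3) * c * v ^ 2 + s * c ^ 2 * v ^ 3)
    (hd : d = 3 + s * c * v)
    (he : e = s ^ 2 * m * n2 + a * x * n1 * d + x * v * d ^ 3) :
    2 * a * x * n1 * d - x ^ 3 * e = 0 := by
  have e6 : (6 : B) = 0 := by linear_combination 2 * h3
  have hsa : s = a := by rw [hs, e6, add_zero]
  subst hsa
  have hac : s * c = 1 := by
    have h1 : s ^ 3 * c = s ^ 2 := by
      rw [hc]
      linear_combination (s + 3) * h3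
    linear_combination i ^ 2 * h1 - (s * c - 1) * (s * i + 1) * hi
  have hn1' : n1 = s ^ 2 := by
    rw [hn1]
    linear_combination ((s + 3) * v + s * c * v ^ 2) * h3
  have hd' : d = v := by
    rw [hd]
    linear_combination h3 + v * hac
  have hn2' : n2 = s + s * v + 2 * v ^ 2 + c * v ^ 3 := by
    rw [hn2]
    linear_combination (s * v + 2 * v ^ 2 + c * v ^ 3) * hac + (c * v ^ 2) * h3
  have hw2 : x * w * (1 + c * v) = x * (1 + c * v) + v * (1 + c * v) ^ 2 := by
    rw [hv] at hw ⊢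
    linear_combination (x * (1 + c * (x ^ 2 * w))) * hw
  have key : e = 2 * s ^ 3 * w := by
    rw [he, hn1', hd', hn2', hm]
    have h5 : w = 1 + v + 2 * c * v ^ 2 + c ^ 2 * v ^ 3 + x * (1 + c * v) := by
      linear_combination hw + hw2
    have h6 : s ^ 3 * c = s ^ 2 := by linear_combination s ^ 2 * hac
    have h7 : s ^ 3 * c ^ 2 = s := by linear_combination (s ^ 2 * c + s) * hac
    have h8 : s ^ 3 * c ^ 3 = 1 := by
      linear_combination (s ^ 2 * c ^ 2 + s * c + 1) * hac
    rw [h5]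
    have h9 : s ^ 2 * c = s := by linear_combination s * hac
    have h10 : s ^ 2 * c ^ 2 = 1 := by linear_combination (s * c + 1) * hac
    linear_combination 2 * v ^ 3 * h9 - 2 * v ^ 3 * h7 - 4 * v ^ 2 * h6 - 3 * x * v ^ 3 * h9 -
      x * v * h6 - x * v ^ 2 * h6 - x * v ^ 4 * h10 - 2 * x * v * h6 -
      x * (s ^ 3 + s ^ 2 * v ^ 2 + s * v ^ 3 + s ^ 2 * v) * h3
  rw [key, hn1', hd', hv]
  ring

end mod

section map

variable {R S : Type} [CommRing R] [CommRing S] (φ : R →+* S) (a s c : R)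

theorem map_vS : map φ (vS c) = vS (φ c) := by
  simp only [vS, map_mul, map_pow, map_X, map_wS]

theorem map_mS : map φ (mS c) = mS (φ c) := by
  simp only [mS, map_mul, map_add, map_sub, map_one, map_ofNat, map_C, map_X, map_vS]

theorem map_nS : map φ (nS a s c) = nS (φ a) (φ s) (φ c) := by
  simp only [nS, map_mul, map_add, map_pow, map_ofNat, map_C, map_vS]

theorem map_oS : map φ (oS a s c) = oS (φ a) (φ s) (φ c) := by
  simp only [oS, map_mul, map_add, map_pow, map_ofNat, map_C, map_vS]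

theorem map_dS : map φ (dS s c) = dS (φ s) (φ c) := by
  simp only [dS, map_mul, map_add, map_ofNat, map_C, map_vS]

theorem map_eS : map φ (eS a s c) = eS (φ a) (φ s) (φ c) := by
  simp only [eS, map_mul, map_add, map_pow, map_C, map_X, map_vS, map_mS, map_nS, map_oS, map_dS]

end map

section int

variable {L : Type} [Field L] {O : Subring L}

theorem In.inv' {f : L⟦X⟧} (hf : In O f) (h1 : (constantCoeff f)⁻¹ ∈ O) : In O f⁻¹ := by
  intro n
  induction n using Nat.strong_induction_on with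
  | _ n ih =>
    rw [coeff_inv]
    split_ifs with hn
    · exact h1
    · refine O.mul_mem (O.neg_mem h1) (O.sum_mem fun x _ => ?_)
      split_ifs with hx
      · exact O.mul_mem (hf _) (ih _ hx)
      · exact O.zero_mem

theorem In.of_map (f : (O)⟦X⟧) : In O (map O.subtype f) := fun n => by
  rw [coeff_map]
  exact Subtype.prop _

/-- `T'` is integral and congruent to `T³` modulo `3` -/
theorem FS_int [CharZero L] {a s c c' : L} (ha : a ∈ O) (hai : a⁻¹ ∈ O) (hsi : s⁻¹ ∈ O)
    (h2 : (2 : L)⁻¹ ∈ O) (hc : c ∈ O) (ha0 : a ≠ 0) (hs0 : s ≠ 0) (hp : Par a s c c') :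
    In O (FS a s c) ∧ InM O 3 (FS a s c - X ^ 3) := by
  have hsO : s ∈ O := by
    rw [hp.hs]
    refine O.add_mem ha ?_
    have := natCast_mem O 6
    exact_mod_cast this
  -- everything over the ring `O`
  obtain ⟨a', rfl⟩ : ∃ k' : O, O.subtype k' = a := ⟨⟨a, ha⟩, rfl⟩
  obtain ⟨s', rfl⟩ : ∃ k' : O, O.subtype k' = s := ⟨⟨s, hsO⟩, rfl⟩
  obtain ⟨c0, rfl⟩ : ∃ k' : O, O.subtype k' = c := ⟨⟨c, hc⟩, rfl⟩
  obtain ⟨i', hi'⟩ : ∃ k' : O, O.subtype k' = (O.subtype a')⁻¹ := ⟨⟨_, hai⟩, rfl⟩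
  have hinj : Function.Injective O.subtype := Subtype.val_injective
  have hia : a' * i' = 1 := hinj (by
    rw [map_mul, hi', map_one]
    exact mul_inv_cancel₀ ha0)
  have hss : s' = a' + 6 := hinj (by
    have := hp.hs
    simpa only [map_add, map_ofNat] using this)
  have hcc : s' ^ 3 * c0 = a' ^ 2 + 3 * a' + 9 := hinj (by
    have := hp.hc
    simpa only [map_mul, map_pow, map_add, map_ofNat] using this)
  obtain ⟨N, hN⟩ : ∃ N : (O)⟦X⟧, N = 2 * C a' * X * nS a' s' c0 * dS s' c0 -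
    X ^ 3 * eS a' s' c0 := ⟨_, rfl⟩
  have hN2 : ∃ S : (O)⟦X⟧, 3 * S = N := by
    have key : N ∈ Ideal.span {(3 : (O)⟦X⟧)} := by
      rw [← Ideal.Quotient.eq_zero_iff_mem]
      have h3 : (3 : (O)⟦X⟧ ⧸ Ideal.span {(3 : (O)⟦X⟧)}) = 0 := by
        rw [← map_ofNat (Ideal.Quotient.mk (Ideal.span {(3 : (O)⟦X⟧)})) 3,
          Ideal.Quotient.eq_zero_iff_mem]
        exact Ideal.mem_span_singleton_self _
      have e1 := congrArg (fun x => Ideal.Quotient.mk (Ideal.span {(3 : (O)⟦X⟧)}) (C x)) hia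
      have e2 := congrArg (fun x => Ideal.Quotient.mk (Ideal.span {(3 : (O)⟦X⟧)}) (C x)) hss
      have e3 := congrArg (fun x => Ideal.Quotient.mk (Ideal.span {(3 : (O)⟦X⟧)}) (C x)) hcc
      have e4 := congrArg (Ideal.Quotient.mk (Ideal.span {(3 : (O)⟦X⟧)})) (wS_eq' c0)
      simp only [map_mul, map_pow, map_add, map_one, map_ofNat] at e1 e2 e3 e4
      rw [hN]
      simp only [map_mul, map_pow, map_sub, map_ofNat]
      refine mod_three h3 (w := Ideal.Quotient.mk _ (wS c0)) (x := Ideal.Quotient.mk _ X)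
        (v := Ideal.Quotient.mk _ (vS c0)) (a := Ideal.Quotient.mk _ (C a'))
        (s := Ideal.Quotient.mk _ (C s')) (c := Ideal.Quotient.mk _ (C c0))
        (i := Ideal.Quotient.mk _ (C i')) (m := Ideal.Quotient.mk _ (mS c0))
        (n1 := Ideal.Quotient.mk _ (nS a' s' c0)) (n2 := Ideal.Quotient.mk _ (oS a' s' c0))
        (d := Ideal.Quotient.mk _ (dS s' c0)) (e := Ideal.Quotient.mk _ (eS a' s' c0))
        e1 e2 e3 e4 ?_ ?_ ?_ ?_ ?_ ?_
      · simp only [vS, map_mul, map_pow]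
      · simp only [mS, map_mul, map_add, map_sub, map_one, map_ofNat]
      · simp only [nS, map_mul, map_pow, map_add, map_ofNat]
      · simp only [oS, map_mul, map_pow, map_add, map_ofNat]
      · simp only [dS, map_mul, map_add, map_ofNat]
      · simp only [eS, map_mul, map_pow, map_add]
    obtain ⟨S, hS⟩ := Ideal.mem_span_singleton'.1 key
    exact ⟨S, by rw [mul_comm]; exact hS⟩
  obtain ⟨S, hS⟩ := hN2
  have hcI : In O (eS (O.subtype a') (O.subtype s') (O.subtype c0))⁻¹ := by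
    refine In.inv' ?_ ?_
    · rw [← map_eS]
      exact In.of_map _
    · rw [eS_const, mul_inv, ← inv_pow]
      exact O.mul_mem h2 (pow_mem hsi 3)
  have hc1 := eS_mul (a := O.subtype a') (c := O.subtype c0) hs0
  have hmapN : map O.subtype N = 2 * C (O.subtype a') * X *
      nS (O.subtype a') (O.subtype s') (O.subtype c0) * dS (O.subtype s') (O.subtype c0) -
      X ^ 3 * eS (O.subtype a') (O.subtype s') (O.subtype c0) := by
    rw [hN]
    simp only [map_sub, map_mul, map_pow, map_ofNat, map_C, map_X, map_nS, map_dS, map_eS]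
  constructor
  · unfold FS
    refine In.mul ?_ hcI
    have h8 := In.of_map (O := O) (2 * C a' * X * nS a' s' c0 * dS s' c0)
    simpa only [map_mul, map_ofNat, map_C, map_X, map_nS, map_dS] using h8
  · refine inM_iff.2 ⟨map O.subtype S * (eS (O.subtype a') (O.subtype s') (O.subtype c0))⁻¹,
      (In.of_map S).mul hcI, ?_⟩
    have h9 := congrArg (map O.subtype) hS
    rw [hmapN, map_mul, map_ofNat] at h9
    rw [map_ofNat]
    unfold FS
    linear_combination (-(eS (O.subtype a') (O.subtype s') (O.subtype c0))⁻¹) * h9 + X ^ 3 * hc1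

end int

end DT.F4
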