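import Pool.Agent.Lib.DT.F4.Bas
import Pool.Agent.Lib.DI.F4.NormQ

/-!
# Theorem DT, part F: the final contradiction
-/

set_option autoImplicit false

namespace DT.F4

open PowerSeries DI.F4

/-- characteristic `3` -/
theorem res {F : Type} [Field F] [CharP F 3] {c : F} {T W : F⟦X⟧}
    (hT1 : coeff 1 T ≠ 0) (hW : CEq c T W) : W ≠ 0 ∧ derivative F W ≠ 0 := by
  have h3 : (3 : F⟦X⟧) = 0 := by
    have h0 : (C (3 : F) : F⟦X⟧) = 3 := map_ofNat _ 3
    have h1 : (3 : F) = 0 := by exact_mod_cast CharP.cast_eq_zero F 3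
    rw [← h0, h1, map_zero]
  have hT0 : T ≠ 0 := by
    intro h
    rw [h, map_zero] at hT1
    exact hT1 rfl
  unfold CEq at hW
  have hW' : W ≠ 0 := by
    intro h
    rw [h] at hW
    have h4 : T ^ 3 = 0 := by linear_combination -hW
    exact hT0 (pow_eq_zero_iff (n := 3) (by norm_num) |>.1 h4)
  have hdT : derivative F T ≠ 0 := by
    intro h
    have h1 := coeff_derivative T 0
    rw [h, map_zero, Nat.cast_zero, zero_add, zero_add, mul_one] at h1
    exact hT1 h1.symm
  refine ⟨hW', fun heq => ?_⟩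
  have hd := congrArg (derivative F) hW
  simp only [Derivation.leibniz, Derivation.leibniz_pow, map_add, derivative_C,
    smul_eq_mul, nsmul_eq_mul] at hd
  have key : derivative F T * W = 0 := by
    push_cast at hd
    rw [heq] at hd
    linear_combination -hd - (T ^ 2 * derivative F T) * h3
  rcases mul_eq_zero.1 key with h | h
  · exact hdT h
  · exact hW' h

private theorem Con_map {R S : Type} [CommRing R] [CommRing S] (φ : R →+* S) {c : R} {T W : R⟦X⟧}
    (h : CEq c T W) : CEq (φ c) (map φ T) (map φ W) := by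
  have h1 := congrArg (map φ) h
  simpa only [CEq, map_add, map_mul, map_pow, map_C] using h1

private theorem Con_inj {R S : Type} [CommRing R] [CommRing S] (φ : R →+* S)
    (hφ : Function.Injective φ) {c : R} {T W : R⟦X⟧}
    (h : CEq (φ c) (map φ T) (map φ W)) : CEq c T W := by
  apply map_injective φ hφ
  simpa only [CEq, map_add, map_mul, map_pow, map_C] using h

/-- lifting of series with coefficients in `V` -/
private theorem Con_lift {Om : Type} [Field Om] (V : ValuationSubring Om) (f : Om⟦X⟧)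
    (hf : ∀ n, coeff n f ∈ V) : ∃ g : V⟦X⟧, map V.subtype g = f := by
  refine ⟨mk fun n => ⟨coeff n f, hf n⟩, ?_⟩
  ext n
  rw [coeff_map, coeff_mk]
  rfl

private theorem Con_unit {Om : Type} [Field Om] (V : ValuationSubring Om) {x : V}
    (h0 : (x : Om) ≠ 0) (h : (x : Om)⁻¹ ∈ V) : IsUnit x :=
  IsUnit.of_mul_eq_one ⟨(x : Om)⁻¹, h⟩ (Subtype.ext (mul_inv_cancel₀ h0))

private theorem Con_res_ne {Om : Type} [Field Om] (V : ValuationSubring Om) {x : V}
    (h0 : (x : Om) ≠ 0) (h : (x : Om)⁻¹ ∈ V) : IsLocalRing.residue V x ≠ 0 := by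
  intro h1
  rw [IsLocalRing.residue_eq_zero_iff] at h1
  exact (IsLocalRing.mem_maximalIdeal x).1 h1 (Con_unit V h0 h)

private theorem Con_res_zero {Om : Type} [Field Om] (V : ValuationSubring Om) {x : V}
    (h : (x : Om)⁻¹ ∉ V) : IsLocalRing.residue V x = 0 := by
  rw [IsLocalRing.residue_eq_zero_iff, IsLocalRing.mem_maximalIdeal]
  rintro ⟨u, rfl⟩
  apply h
  have h1 : ((u : V) : Om)⁻¹ = ((u⁻¹ : Vˣ) : V) := by
    have h2 : ((u : V) : Om) * (((u⁻¹ : Vˣ) : V) : Om) = 1 := by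
      exact congrArg V.subtype (Units.mul_inv u)
    exact (eq_inv_of_mul_eq_one_right h2).symm
  rw [h1]
  exact Subtype.mem _

/-- the contradiction in characteristic `3` -/
private theorem Con_core {F : Type} [Field F] [CharP F 3] {W e f : F⟦X⟧} {l m : F}
    (hdW : derivative F W ≠ 0) (he : e ≠ 0) (hf : f ≠ 0) (hlm : l ≠ 0 ∨ m ≠ 0)
    (h : C l * (e ^ 3 * W) = C m * f ^ 3) : False := by
  have h3 : (3 : F⟦X⟧) = 0 := by
    have h0 : (C (3 : F) : F⟦X⟧) = 3 := map_ofNat _ 3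
    have h1 : (3 : F) = 0 := by exact_mod_cast CharP.cast_eq_zero F 3
    rw [← h0, h1, map_zero]
  have hl : l ≠ 0 := by
    rintro rfl
    rw [map_zero, zero_mul] at h
    have hm : m ≠ 0 := hlm.resolve_left (fun h => h rfl)
    exact mul_ne_zero ((map_ne_zero_iff _ C_injective).2 hm) (pow_ne_zero 3 hf) h.symm
  have h5 := congrArg (derivative F) h
  simp only [Derivation.leibniz, Derivation.leibniz_pow, derivative_C, smul_eq_mul,
    nsmul_eq_mul] at h5
  have h6 : C l * (e ^ 3 * derivative F W) = 0 := by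
    push_cast at h5
    linear_combination h5 + (C m * f ^ 2 * derivative F f - C l * W * e ^ 2 * derivative F e) * h3
  exact mul_ne_zero ((map_ne_zero_iff _ C_injective).2 hl)
    (mul_ne_zero (pow_ne_zero 3 he) hdW) h6

/-- **Con.** -/
theorem con {Om : Type} [Field Om] [CharZero Om] {V : ValuationSubring Om} {S : Subfield Om}
    {ϖ : Om} (hU : Unif V S ϖ) (h3 : (3 : Om)⁻¹ ∉ V) {c γ : Om} (hc : c ∈ V) (hγ : γ ≠ 0)
    {T W E F θ θ' : Om⟦X⟧} (vT : ∀ n, coeff n T ∈ V)
    (cT : constantCoeff T = 0) (cW : constantCoeff W = 0)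
    (hT : coeff 1 T ≠ 0) (hT' : (coeff 1 T)⁻¹ ∈ V)
    (eT : CEq c T W)
    (hE : E ≠ 0) (hF : F ≠ 0) (sE : ∀ n, coeff n E ∈ S) (sF : ∀ n, coeff n F ∈ S)
    (vE : ∀ n, coeff n E ∈ V) (vF : ∀ n, coeff n F ∈ V)
    (vθ : ∀ n, coeff n θ ∈ V) (vθ' : ∀ n, coeff n θ' ∈ V)
    (heq : E ^ 3 * W * (1 + 3 * θ) = C γ * (F ^ 3 * (1 + 3 * θ'))) : False := by
  obtain ⟨c1, hc1, vc1, n1, hn1, hn1'⟩ := tNormQ Om V S ϖ hU E hE sE vE
  obtain ⟨c2, hc2, vc2, n2, hn2, hn2'⟩ := tNormQ Om V S ϖ hU F hF sF vF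
  -- the coefficients of `W` are in `V`
  have vW : ∀ n, coeff n W ∈ V := by
    obtain ⟨h3, h4⟩ := wSol c cT
    have h5 : W = T ^ 3 * cs (wS c) T := by
      refine h4 _ _ cW ?_ eT h3
      rw [map_mul, map_pow, cT]
      ring
    have h6 : In V.toSubring T := vT
    have h7 : In V.toSubring W := by
      rw [h5]
      exact (h6.pow 3).mul ((In.wS (O := V.toSubring) hc).cs h6 cT)
    exact h7
  -- lifts
  have hinj : Function.Injective V.subtype := Subtype.val_injective
  obtain ⟨t, rfl⟩ := Con_lift V T vT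
  obtain ⟨w, rfl⟩ := Con_lift V W vW
  obtain ⟨p, rfl⟩ := Con_lift V θ vθ
  obtain ⟨p', rfl⟩ := Con_lift V θ' vθ'
  obtain ⟨q1, hq1⟩ := Con_lift V (C c1 * E) (fun n => by rw [coeff_C_mul]; exact vc1 n)
  obtain ⟨q2, hq2⟩ := Con_lift V (C c2 * F) (fun n => by rw [coeff_C_mul]; exact vc2 n)
  obtain ⟨c', rfl⟩ : ∃ p : V, V.subtype p = c := ⟨⟨c, hc⟩, rfl⟩
  -- the residue field
  have h3F : (3 : IsLocalRing.ResidueField V) = 0 := by
    have h4 : IsLocalRing.residue V (3 : V) = 0 := by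
      apply Con_res_zero
      exact h3
    rwa [map_ofNat] at h4
  have : CharP (IsLocalRing.ResidueField V) 3 :=
    (CharP.charP_iff_prime_eq_zero Nat.prime_three).2 (by exact_mod_cast h3F)
  -- the data over the residue field
  have red_ne : ∀ (f : V⟦X⟧) (n : ℕ), coeff n (map V.subtype f) ≠ 0 →
      (coeff n (map V.subtype f))⁻¹ ∈ V → coeff n (map (IsLocalRing.residue V) f) ≠ 0 := by
    intro f n h3 h4
    rw [coeff_map] at h3 h4 ⊢
    exact Con_res_ne V h3 h4
  have dA := red_ne t 1 hT hT'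
  have fA := Con_map (IsLocalRing.residue V) (Con_inj V.subtype hinj eT)
  obtain ⟨-, w2⟩ := res dA fA
  have hr1 : map (IsLocalRing.residue V) q1 ≠ 0 := by
    intro h
    refine red_ne q1 n1 ?_ ?_ (by rw [h, map_zero])
    · rw [hq1, coeff_C_mul]
      exact hn1
    · rw [hq1, coeff_C_mul]
      exact hn1'
  have hr2 : map (IsLocalRing.residue V) q2 ≠ 0 := by
    intro h
    refine red_ne q2 n2 ?_ ?_ (by rw [h, map_zero])
    · rw [hq2, coeff_C_mul]
      exact hn2
    · rw [hq2, coeff_C_mul]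
      exact hn2'
  have h3X : (3 : (IsLocalRing.ResidueField V)⟦X⟧) = 0 := by
    rw [← map_ofNat (C (R := IsLocalRing.ResidueField V)), h3F, map_zero]
  -- the equation, multiplied by the cube of c1 c2
  have heq2 : C (c2 ^ 3) * (map V.subtype q1 ^ 3 * map V.subtype w * (1 + 3 * map V.subtype p)) =
      C (γ * c1 ^ 3) * (map V.subtype q2 ^ 3 * (1 + 3 * map V.subtype p')) := by
    rw [hq1, hq2, map_mul, map_pow, map_pow]
    linear_combination (C c1 ^ 3 * C c2 ^ 3) * heq
  obtain ⟨l, hl⟩ : ∃ l : Om, l = γ * c1 ^ 3 / c2 ^ 3 := ⟨_, rfl⟩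
  have hl0 : l ≠ 0 := by
    rw [hl]
    exact div_ne_zero (mul_ne_zero hγ (pow_ne_zero 3 hc1)) (pow_ne_zero 3 hc2)
  have hl1 : γ * c1 ^ 3 = c2 ^ 3 * l := by
    rw [hl]
    field_simp
  have hC2 : (C (c2 ^ 3) : Om⟦X⟧) ≠ 0 := (map_ne_zero_iff _ C_injective).2 (pow_ne_zero 3 hc2)
  have heq3 : map V.subtype q1 ^ 3 * map V.subtype w * (1 + 3 * map V.subtype p) =
      C l * (map V.subtype q2 ^ 3 * (1 + 3 * map V.subtype p')) := by
    apply mul_left_cancel₀ hC2
    rw [heq2, hl1, map_mul]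
    ring
  by_cases ht : l ∈ V
  · obtain ⟨l', rfl⟩ : ∃ l' : V, V.subtype l' = l := ⟨⟨_, ht⟩, rfl⟩
    have h4 : q1 ^ 3 * w * (1 + 3 * p) = C l' * (q2 ^ 3 * (1 + 3 * p')) := by
      apply map_injective V.subtype hinj
      simpa only [map_mul, map_add, map_pow, map_C, map_one, map_ofNat] using heq3
    have h5 := congrArg (map (IsLocalRing.residue V)) h4
    simp only [map_mul, map_add, map_pow, map_C, map_one, map_ofNat] at h5
    rw [h3X, zero_mul, zero_mul, add_zero, mul_one, mul_one] at h5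
    refine Con_core (l := 1) (m := IsLocalRing.residue V l') w2 hr1 hr2
      (Or.inl one_ne_zero) ?_
    rw [map_one, one_mul]
    exact h5
  · have ht1 : l⁻¹ ∈ V := (V.mem_or_inv_mem _).resolve_left ht
    obtain ⟨s, hs⟩ : ∃ s : V, V.subtype s = l⁻¹ := ⟨⟨_, ht1⟩, rfl⟩
    have h4 : C s * (q1 ^ 3 * w * (1 + 3 * p)) = q2 ^ 3 * (1 + 3 * p') := by
      apply map_injective V.subtype hinj
      simp only [map_mul, map_add, map_pow, map_C, map_one, map_ofNat]
      rw [heq3, hs, ← mul_assoc, ← map_mul, inv_mul_cancel₀ hl0, map_one, one_mul]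
    have h5 := congrArg (map (IsLocalRing.residue V)) h4
    simp only [map_mul, map_add, map_pow, map_C, map_one, map_ofNat] at h5
    rw [h3X, zero_mul, zero_mul, add_zero, mul_one, mul_one] at h5
    refine Con_core (l := IsLocalRing.residue V s) (m := 1) w2 hr1 hr2
      (Or.inr one_ne_zero) ?_
    rw [map_one, one_mul]
    exact h5

end DT.F4
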