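import Pool.Agent.Lib.DT.F4.Honda
import Mathlib.NumberTheory.Padics.PadicVal.Basic

/-!
# Theorem DT, part F: small arguments (the conjugate side)

`W` as a series in `u`: `n! a^n w_n ∈ a³ O` for the curve `c = 1/a³`. If `a = 3 v`, `v` a unit, and `h` is
divisible by `27`, then `W(h) = h³ (1 + 3 θ)`.
-/

set_option autoImplicit false

namespace DT.F4

open PowerSeries DI.F4

section ode

variable {L : Type} [Field L] [CharZero L] (c : L)

/-- `W` as a series in `u` -/
noncomputable def WeS : L⟦X⟧ := exS c ^ 3 * cs (wS c) (exS c)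

private theorem om_exS : cs (omS c) (exS c) * derivative L (exS c) = 1 := by
  have h1 := congrArg (derivative L) (lg_exS c)
  rw [d_cs (exS_const c), d_lgS] at h1
  rw [h1]
  exact derivative_X

theorem d_exS : derivative L (exS c) = 1 - exS c - 2 * (C c * WeS c) := by
  have h1 := om_exS c
  have hT := exS_const c
  have h3 := congrArg (fun f => cs f (exS c)) (PS_omS c)
  simp only [PS, cs_mul hT, cs_sub hT, cs_pow hT, cs_X hT, cs_one, cs_C] at h3
  have h0 : cs (2 : L⟦X⟧) (exS c) = 2 := cs_ofNat _ 2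
  rw [h0] at h3
  unfold WeS
  linear_combination (1 - exS c - 2 * (C c * (exS c ^ 3 * cs (wS c) (exS c)))) * h1 -
    derivative L (exS c) * h3

theorem d_WeS : derivative L (WeS c) = 3 * exS c ^ 2 + WeS c := by
  have h1 := star c (exS_const c)
  rw [om_exS, mul_one] at h1
  exact h1

/-- `n! a^n` times the coefficients -/
theorem dv {O : Subring L} {a : L} (ha : a ∈ O) (hc : a ^ 3 * c = 1) (n : ℕ) :
    (∃ y ∈ O, (n.factorial : L) * a ^ n * coeff n (exS c) = a * y) ∧
      ∃ y ∈ O, (n.factorial : L) * a ^ n * coeff n (WeS c) = a ^ 3 * y := by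
  have e0 : coeff 0 (exS c) = 0 := by
    rw [coeff_zero_eq_constantCoeff_apply, exS_const]
  have w0 : coeff 0 (WeS c) = 0 := by
    rw [coeff_zero_eq_constantCoeff_apply, WeS, map_mul, map_pow, exS_const,
      zero_pow (by norm_num), zero_mul]
  induction n using Nat.strong_induction_on with
  | _ n ih =>
    rcases n with _ | n
    · exact ⟨⟨0, O.zero_mem, by rw [e0, mul_zero, mul_zero]⟩,
        ⟨0, O.zero_mem, by rw [w0, mul_zero, mul_zero]⟩⟩
    have hf : ((n + 1).factorial : L) = ((n : L) + 1) * (n.factorial : L) := by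
      rw [Nat.factorial_succ]
      push_cast
      ring
    obtain ⟨⟨y, hy, ey⟩, ⟨z, hz, ez⟩⟩ := ih n (Nat.lt_succ_self n)
    have d1 : coeff (n + 1) (exS c) * ((n : L) + 1) =
        coeff n (1 : L⟦X⟧) - coeff n (exS c) - 2 * (c * coeff n (WeS c)) := by
      rw [← coeff_derivative, d_exS]
      have e2 : (2 : L⟦X⟧) = C (2 : L) := (map_ofNat _ 2).symm
      rw [map_sub, map_sub, e2, coeff_C_mul, coeff_C_mul]
    have d2 : coeff (n + 1) (WeS c) * ((n : L) + 1) =
        3 * coeff n (exS c ^ 2) + coeff n (WeS c) := by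
      rw [← coeff_derivative, d_WeS]
      have e2 : (3 : L⟦X⟧) = C (3 : L) := (map_ofNat _ 3).symm
      rw [map_add, e2, coeff_C_mul]
    -- the square
    have hsq : ∃ s ∈ O, (n.factorial : L) * a ^ n * coeff n (exS c ^ 2) = a ^ 2 * s := by
      have h1 : (n.factorial : L) * a ^ n * coeff n (exS c ^ 2) =
          ∑ p ∈ Finset.HasAntidiagonal.antidiagonal n, (n.choose p.1 : L) *
            (((p.1.factorial : L) * a ^ p.1 * coeff p.1 (exS c)) *
              ((p.2.factorial : L) * a ^ p.2 * coeff p.2 (exS c))) := by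
        rw [pow_two, coeff_mul, Finset.mul_sum]
        refine Finset.sum_congr rfl fun p hp => ?_
        have hp' := Finset.HasAntidiagonal.mem_antidiagonal.1 hp
        have h2 : (n.factorial : L) = n.choose p.1 * p.1.factorial * p.2.factorial := by
          have h3 := Nat.choose_mul_factorial_mul_factorial (show p.1 ≤ n by omega)
          have h4 : n - p.1 = p.2 := by omega
          rw [h4] at h3
          exact_mod_cast h3.symm
        have h5 : a ^ n = a ^ p.1 * a ^ p.2 := by rw [← pow_add, hp']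
        rw [h2, h5]
        ring
      rw [h1]
      refine Finset.sum_induction _ (fun x : L => ∃ s ∈ O, x = a ^ 2 * s) ?_ ?_ ?_
      · rintro x x' ⟨s, hs, rfl⟩ ⟨s', hs', rfl⟩
        exact ⟨s + s', O.add_mem hs hs', by ring⟩
      · exact ⟨0, O.zero_mem, by ring⟩
      · intro p hp
        have hp' := Finset.HasAntidiagonal.mem_antidiagonal.1 hp
        obtain ⟨⟨s, hs, es⟩, -⟩ := ih p.1 (by omega)
        obtain ⟨⟨s', hs', es'⟩, -⟩ := ih p.2 (by omega)
        refine ⟨(n.choose p.1 : L) * (s * s'),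
          O.mul_mem (natCast_mem O _) (O.mul_mem hs hs'), ?_⟩
        rw [es, es']
        ring
    obtain ⟨s, hs, es⟩ := hsq
    constructor
    · refine ⟨(n.factorial : L) * a ^ n * coeff n (1 : L⟦X⟧) - a * y - 2 * z, ?_, ?_⟩
      · refine O.sub_mem (O.sub_mem (O.mul_mem (O.mul_mem (natCast_mem O _) (O.pow_mem ha n)) ?_)
          (O.mul_mem ha hy)) (O.mul_mem ?_ hz)
        · rw [coeff_one]
          split_ifs
          · exact O.one_mem
          · exact O.zero_mem
        · have := natCast_mem O 2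
          exact_mod_cast this
      · rw [hf, pow_succ]
        linear_combination ((n.factorial : L) * a ^ n * a) * d1 - a * ey - 2 * (a * c) * ez -
          (2 * a * z) * hc
    · refine ⟨3 * s + a * z, O.add_mem (O.mul_mem ?_ hs) (O.mul_mem ha hz), ?_⟩
      · have := natCast_mem O 3
        exact_mod_cast this
      · rw [hf, pow_succ]
        linear_combination ((n.factorial : L) * a ^ n * a) * d2 + 3 * a * es + a * ez

/-- `WeS = X³ Om`, `Om(0) = 1` -/
theorem WeS_X : ∃ Q : L⟦X⟧, WeS c = X ^ 3 * Q ∧ constantCoeff Q = 1 := by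
  obtain ⟨g, hg⟩ := (X_dvd_iff).2 (exS_const c)
  have hg1 : constantCoeff g = 1 := by
    have h1 := coeff_one_TofS (c := c) (u := (X : L⟦X⟧)) constantCoeff_X
    rw [TofS, cs_self_X, coeff_one_X, hg] at h1
    have h2 := coeff_succ_X_mul 0 g
    rw [zero_add, coeff_zero_eq_constantCoeff_apply] at h2
    rw [← h2]
    exact h1
  refine ⟨g ^ 3 * cs (wS c) (exS c), ?_, ?_⟩
  · have h3 : exS c ^ 3 = (X * g) ^ 3 := congrArg (· ^ 3) hg
    unfold WeS
    linear_combination cs (wS c) (exS c) * h3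
  · rw [map_mul, map_pow, hg1, constantCoeff_cs (exS_const c), wS_const, one_pow, mul_one]

end ode

private theorem fac_le (n : ℕ) : ∃ v m : ℕ, n.factorial = 3 ^ v * m ∧ ¬ 3 ∣ m ∧ 2 * v ≤ n := by
  obtain ⟨v, m, hm, he⟩ := Nat.exists_eq_pow_mul_and_not_dvd (Nat.factorial_ne_zero n) 3
    (by norm_num)
  refine ⟨v, m, he, hm, ?_⟩
  have : Fact (Nat.Prime 3) := ⟨Nat.prime_three⟩
  have h1 := sub_one_mul_padicValNat_factorial (p := 3) n
  have h2 : v ≤ padicValNat 3 n.factorial :=
    (padicValNat_dvd_iff_le (Nat.factorial_ne_zero n)).1 ⟨m, he⟩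
  omega

/-- `9^d/(d+3)!` is divisible by `3` -/
private theorem nine_fac {L : Type} [Field L] [CharZero L] {O : Subring L} (hO : Od O) {d : ℕ}
    (hd : 1 ≤ d) : ∃ y ∈ O, (9 : L) ^ d / ((d + 3).factorial : L) = 3 * y := by
  rcases Nat.lt_or_ge d 2 with h | h
  · have h1 : d = 1 := by omega
    subst h1
    refine ⟨((8 : ℕ) : L)⁻¹, hO 8 (by norm_num), ?_⟩
    norm_num [Nat.factorial]
  · obtain ⟨v, m, he, hm, hv⟩ := fac_le (d + 3)
    have hm0 : (m : L) ≠ 0 := by
      have : m ≠ 0 := by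
        rintro rfl
        exact hm (dvd_zero 3)
      exact_mod_cast this
    refine ⟨3 ^ (2 * d - 1 - v) * (m : L)⁻¹, O.mul_mem (pow_mem (by
      have := natCast_mem O 3
      exact_mod_cast this) _) (hO m hm), ?_⟩
    have e1 : ((d + 3).factorial : L) = 3 ^ v * m := by exact_mod_cast he
    have e2 : (9 : L) ^ d = 3 * (3 ^ (2 * d - 1 - v) * 3 ^ v) := by
      rw [← pow_add, ← pow_succ']
      have e3 : 2 * d - 1 - v + v + 1 = 2 * d := by omega
      rw [e3, pow_mul]
      norm_num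
    have h3 : (3 : L) ^ v ≠ 0 := pow_ne_zero _ three_ne_zero
    rw [e1, e2]
    field_simp

/-- **Small arguments.** -/
theorem small {L : Type} [Field L] [CharZero L] {O : Subring L} (hO : Od O) {a v c : L}
    (ha : a ∈ O) (ha0 : a ≠ 0) (hv : a = 3 * v) (hvi : v⁻¹ ∈ O) (hc : a ^ 3 * c = 1)
    {T W h : L⟦X⟧} (hT : constantCoeff T = 0) (hW : constantCoeff W = 0)
    (hh0 : constantCoeff h = 0) (hT0 : T ≠ 0) (hE : CEq c T W)
    (hD : derivative L T * W - T * derivative L W =
      (T - 2 + C c * W) * W * derivative L h) (hh : InM O 27 h) :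
    ∃ θ : L⟦X⟧, In O θ ∧ W = h ^ 3 * (1 + 3 * θ) := by
  obtain ⟨h1, h2⟩ := ident hT hW hh0 hT0 hE hD
  have hv0 : v ≠ 0 := by
    rintro rfl
    rw [mul_zero] at hv
    exact ha0 hv
  obtain ⟨g, hg, rfl⟩ := inM_iff.1 hh
  have hg0 : constantCoeff g = 0 := by
    rw [map_mul, constantCoeff_C] at hh0
    exact (mul_eq_zero.1 hh0).resolve_left (by norm_num)
  have h3 : W = cs (WeS c) (C 27 * g) := by
    unfold WeS
    rw [cs_mul hh0, cs_pow hh0, cs_cs (exS_const c) hh0]
    change W = TofS c (C 27 * g) ^ 3 * cs (wS c) (TofS c (C 27 * g))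
    rw [← h1]
    exact h2
  obtain ⟨Q, hQ, hQ1⟩ := WeS_X c
  have h4 : W = (C 27 * g) ^ 3 * cs Q (C 27 * g) := by
    rw [h3, hQ, cs_mul hh0, cs_pow hh0, cs_X hh0]
  have hQd : ∀ d, 1 ≤ d → ∃ y ∈ O, 27 ^ d * coeff d Q = 3 * y := by
    intro d hd
    obtain ⟨-, ⟨z, hz, ez⟩⟩ := dv c ha hc (d + 3)
    have e1 : coeff (d + 3) (WeS c) = coeff d Q := by
      rw [hQ, coeff_X_pow_mul]
    rw [e1] at ez
    obtain ⟨y, hy, ey⟩ := nine_fac hO hd
    refine ⟨y * (z * v⁻¹ ^ d), O.mul_mem hy (O.mul_mem hz (O.pow_mem hvi d)), ?_⟩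
    have hf : ((d + 3).factorial : L) ≠ 0 := by
      exact_mod_cast Nat.factorial_ne_zero (d + 3)
    have e2 : coeff d Q = z / (((d + 3).factorial : L) * a ^ d) := by
      rw [eq_div_iff (mul_ne_zero hf (pow_ne_zero d ha0))]
      apply mul_left_cancel₀ (pow_ne_zero 3 ha0)
      rw [← ez, pow_add]
      ring
    rw [e2, ← mul_assoc, ← ey, hv, mul_pow]
    have e3 : (27 : L) ^ d = 9 ^ d * 3 ^ d := by
      rw [← mul_pow]
      norm_num
    have h3' : (3 : L) ^ d ≠ 0 := pow_ne_zero _ three_ne_zero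
    rw [e3, inv_pow]
    field_simp
  have h5 : InM O 3 (cs Q (C 27 * g) - 1) := by
    intro n
    rw [map_sub, coeff_cs hh0, Finset.sum_range_succ']
    have e0 : coeff 0 Q * coeff n ((C 27 * g) ^ 0) = coeff n (1 : L⟦X⟧) := by
      rw [coeff_zero_eq_constantCoeff_apply, hQ1, pow_zero, one_mul]
    rw [e0, add_sub_cancel_right]
    refine Finset.sum_induction _ (fun x : L => ∃ s ∈ O, x = 3 * s) ?_ ?_ ?_
    · rintro x x' ⟨s, hs, rfl⟩ ⟨s', hs', rfl⟩
      exact ⟨s + s', O.add_mem hs hs', by ring⟩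
    · exact ⟨0, O.zero_mem, by ring⟩
    · intro d _
      obtain ⟨y, hy, ey⟩ := hQd (d + 1) (Nat.le_add_left 1 d)
      refine ⟨y * coeff n (g ^ (d + 1)), O.mul_mem hy ((hg.pow _) n), ?_⟩
      rw [mul_pow, ← map_pow, coeff_C_mul]
      linear_combination coeff n (g ^ (d + 1)) * ey
  obtain ⟨θ, hθ, e⟩ := inM_iff.1 h5
  refine ⟨θ, hθ, ?_⟩
  have e3 : (C (3 : L) : L⟦X⟧) = 3 := map_ofNat _ 3
  rw [e3] at e
  rw [h4]
  linear_combination (C 27 * g) ^ 3 * e

end DT.F4
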