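import Pool.Agent.Lib.DI.F4.Bas

/-!
# Theorem DT (`p = 3`), part F, generic part: the curves `y² + xy + c y = x³`

`T = -x/y`, `W = -1/y`, so `x = T/W`, `y = -1/W` and `W = T³ + T W + c W²` (`CEq c T W`).
`W = X³ w`, `w = wS c`.  The composition `cs f g = f ∘ g` and its calculus, `In`, `InM` are in `DI/F4`.
-/

set_option autoImplicit false

namespace DT.F4

open PowerSeries DI.F4

/-- the equation of the curve in the coordinates `T`, `W` -/
def CEq {R : Type} [CommRing R] (c : R) (T W : R⟦X⟧) : Prop :=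
  W = T ^ 3 + T * W + C c * W ^ 2

/-! ## The series `w` -/

section w

variable {R : Type} [CommRing R] (c : R)

private noncomputable def ph (y : R⟦X⟧) : R⟦X⟧ :=
  1 + X * y + C c * (X ^ 3 * y ^ 2)

private noncomputable def sq : ℕ → R⟦X⟧
  | 0 => 0
  | k + 1 => ph c (sq k)

private theorem ph_sub (y z : R⟦X⟧) : ph c y - ph c z =
    X * ((y - z) * (1 + C c * (X ^ 2 * (y + z)))) := by
  unfold ph
  ring

private theorem sq_dvd (k : ℕ) : (X : R⟦X⟧) ^ k ∣ sq c (k + 1) - sq c k := by
  induction k with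
  | zero => exact ⟨_, (one_mul _).symm⟩
  | succ k ih =>
    obtain ⟨e, he⟩ := ih
    change X ^ (k + 1) ∣ ph c (sq c (k + 1)) - ph c (sq c k)
    rw [ph_sub, he]
    exact ⟨e * (1 + C c * (X ^ 2 * (sq c (k + 1) + sq c k))), by ring⟩

private theorem sq_coeff {n k : ℕ} (h : n < k) : coeff n (sq c k) = coeff n (sq c (n + 1)) := by
  obtain ⟨m, rfl⟩ : ∃ m, k = n + 1 + m := ⟨k - (n + 1), by omega⟩
  clear h
  induction m with
  | zero => rfl
  | succ m ih =>
    rw [← ih]
    obtain ⟨e, he⟩ := sq_dvd c (n + 1 + m)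
    have h1 : sq c (n + 1 + (m + 1)) = sq c (n + 1 + m) + X ^ (n + 1 + m) * e := by
      rw [← he]
      ring_nf
    rw [h1, map_add, coeff_X_pow_mul', if_neg (by omega), add_zero]

/-- the series `w` of the curve with the coefficient `c` -/
noncomputable def wS : R⟦X⟧ := mk fun n => coeff n (sq c (n + 1))

private theorem wS_dvd (k : ℕ) : (X : R⟦X⟧) ^ k ∣ wS c - sq c k := by
  rw [X_pow_dvd_iff]
  intro n hn
  rw [map_sub, wS, coeff_mk, sq_coeff c hn, sub_self]

theorem wS_eq : wS c = 1 + X * wS c + C c * (X ^ 3 * wS c ^ 2) := by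
  have h1 : ∀ k : ℕ, (X : R⟦X⟧) ^ k ∣ wS c - ph c (wS c) := by
    intro k
    have h2 : (X : R⟦X⟧) ^ k ∣ wS c - sq c (k + 1) :=
      (pow_dvd_pow X (Nat.le_succ k)).trans (wS_dvd c (k + 1))
    have h3 : (X : R⟦X⟧) ^ k ∣ ph c (wS c) - ph c (sq c k) := by
      obtain ⟨e, he⟩ := wS_dvd c k
      rw [ph_sub, he]
      exact ⟨X * (e * (1 + C c * (X ^ 2 * (wS c + sq c k)))), by ring⟩
    have h4 : wS c - ph c (wS c) =
        (wS c - sq c (k + 1)) - (ph c (wS c) - ph c (sq c k)) := by
      change wS c - ph c (wS c) =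
        (wS c - ph c (sq c k)) - (ph c (wS c) - ph c (sq c k))
      ring
    rw [h4]
    exact dvd_sub h2 h3
  have h5 : wS c - ph c (wS c) = 0 := by
    ext n
    have h6 := (X_pow_dvd_iff).1 (h1 (n + 1)) n (Nat.lt_succ_self n)
    rw [h6, map_zero]
  exact sub_eq_zero.1 h5

theorem wS_const : constantCoeff (wS c) = 1 := by
  have h := congrArg constantCoeff (wS_eq c)
  simpa using h

/-- uniqueness -/
theorem wS_uniq {y : R⟦X⟧} (h : y = 1 + X * y + C c * (X ^ 3 * y ^ 2)) :
    y = wS c := by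
  have h1 := wS_eq c
  have h2 : (y - wS c) * (1 - X * (1 + C c * (X ^ 2 * (y + wS c)))) = 0 := by
    linear_combination h - h1
  have h3 : IsUnit (1 - X * (1 + C c * (X ^ 2 * (y + wS c)))) := by
    rw [isUnit_iff_constantCoeff]
    simp
  exact sub_eq_zero.1 ((h3.mul_left_eq_zero).1 h2)

theorem map_wS {S : Type} [CommRing S] (φ : R →+* S) : map φ (wS c) = wS (φ c) := by
  apply wS_uniq
  have h := congrArg (map φ) (wS_eq c)
  simpa only [map_add, map_mul, map_pow, map_one, map_X, map_C] using h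

/-- `P = 1 - X - 2 c X³ w` -/
noncomputable def PS : R⟦X⟧ := 1 - X - 2 * (C c * (X ^ 3 * wS c))

theorem PS_const : constantCoeff (PS c) = 1 := by
  simp [PS]

/-- the invariant differential `om = 1 / P` -/
noncomputable def omS : R⟦X⟧ := invOfUnit (PS c) 1

theorem PS_omS : PS c * omS c = 1 :=
  mul_invOfUnit (PS c) 1 (by rw [PS_const, Units.val_one])

theorem omS_const : constantCoeff (omS c) = 1 := by
  have h := congrArg constantCoeff (PS_omS c)
  rwa [map_mul, PS_const, one_mul, map_one] at h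

theorem map_PS {S : Type} [CommRing S] (φ : R →+* S) : map φ (PS c) = PS (φ c) := by
  simp only [PS, map_sub, map_mul, map_pow, map_one, map_X, map_C, map_ofNat, map_wS]

theorem map_omS {S : Type} [CommRing S] (φ : R →+* S) : map φ (omS c) = omS (φ c) := by
  have h1 := congrArg (map φ) (PS_omS c)
  rw [map_mul, map_PS, map_one] at h1
  have h2 := PS_omS (φ c)
  calc map φ (omS c) = map φ (omS c) * (PS (φ c) * omS (φ c)) := by
        rw [h2, mul_one]
    _ = (PS (φ c) * map φ (omS c)) * omS (φ c) := by ring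
    _ = omS (φ c) := by rw [h1, one_mul]

end w

/-! ## The logarithm -/

section lg

variable {L : Type} [Field L] (c : L)

/-- the logarithm `∑ c_m X^m / m` of the curve, `c_m` = coefficient of `X^(m-1)` in `om` -/
noncomputable def lgS : L⟦X⟧ := mk fun m => coeff (m - 1) (omS c) / m

theorem lgS_const : constantCoeff (lgS c) = 0 := by
  rw [← coeff_zero_eq_constantCoeff_apply, lgS, coeff_mk, Nat.cast_zero, div_zero]

theorem coeff_one_lgS : coeff 1 (lgS c) = 1 := by
  rw [lgS, coeff_mk, Nat.cast_one, div_one, Nat.sub_self, coeff_zero_eq_constantCoeff_apply,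
    omS_const]

theorem d_lgS [CharZero L] : derivative L (lgS c) = omS c := by
  ext n
  rw [coeff_derivative, lgS, coeff_mk, Nat.add_sub_cancel]
  have h : ((n : L) + 1) ≠ 0 := by exact_mod_cast Nat.succ_ne_zero n
  push_cast
  field_simp

theorem coeff_one_lgS_unit : IsUnit (coeff 1 (lgS c)) := by
  rw [coeff_one_lgS]
  exact isUnit_one

/-- the compositional inverse of `lg` -/
noncomputable def exS : L⟦X⟧ := substInvOfIsUnit (lgS c) (coeff_one_lgS_unit c)

theorem exS_const : constantCoeff (exS c) = 0 := constantCoeff_substInvOfIsUnit _ _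

theorem lg_exS : cs (lgS c) (exS c) = X :=
  subst_substInvOfIsUnit_right (lgS c) (lgS_const c) _

theorem ex_lgS : cs (exS c) (lgS c) = X :=
  subst_substInvOfIsUnit_left (lgS c) (lgS_const c) _

/-- `T(u)`: the series with `lg(T(u)) = u` -/
noncomputable def TofS (u : L⟦X⟧) : L⟦X⟧ := cs (exS c) u

variable {c}

theorem TofS_const {u : L⟦X⟧} (hu : constantCoeff u = 0) : constantCoeff (TofS c u) = 0 := by
  rw [TofS, constantCoeff_cs hu, exS_const]

theorem lg_TofS {u : L⟦X⟧} (hu : constantCoeff u = 0) : cs (lgS c) (TofS c u) = u := by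
  rw [TofS, ← cs_cs (exS_const c) hu, lg_exS, cs_X hu]

theorem TofS_lg {T : L⟦X⟧} (hT : constantCoeff T = 0) : TofS c (cs (lgS c) T) = T := by
  rw [TofS, ← cs_cs (lgS_const c) hT, ex_lgS, cs_X hT]

/-- a series `T` with `lg(T) = u` is `T(u)` -/
theorem eq_TofS {T u : L⟦X⟧} (hT : constantCoeff T = 0) (h : cs (lgS c) T = u) :
    T = TofS c u := by
  rw [← h, TofS_lg hT]

theorem coeff_one_TofS {u : L⟦X⟧} (hu : constantCoeff u = 0) :
    coeff 1 (TofS c u) = coeff 1 u := by
  have h := congrArg (coeff 1) (lg_TofS (c := c) hu)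
  rwa [coeff_one_cs (TofS_const hu), coeff_one_lgS, one_mul] at h

variable (c) in
theorem map_lgS {L' : Type} [Field L'] (φ : L →+* L') : map φ (lgS c) = lgS (φ c) := by
  ext n
  rw [coeff_map, lgS, lgS, coeff_mk, coeff_mk, map_div₀, map_natCast, ← coeff_map, map_omS]

end lg

/-! ## Integrality -/

section int

variable {L : Type} [Field L] {O : Subring L} {c : L}

theorem In.wS (hc : c ∈ O) : In O (wS c) := fun n => by
  have h := congrArg (coeff n) (map_wS (⟨c, hc⟩ : O) O.subtype)
  rw [coeff_map] at h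
  have h1 : DT.F4.wS c = DT.F4.wS (O.subtype ⟨c, hc⟩) := rfl
  rw [h1, ← h]
  exact Subtype.prop _

theorem In.omS (hc : c ∈ O) : In O (omS c) := fun n => by
  have h := congrArg (coeff n) (map_omS (⟨c, hc⟩ : O) O.subtype)
  rw [coeff_map] at h
  have h1 : DT.F4.omS c = DT.F4.omS (O.subtype ⟨c, hc⟩) := rfl
  rw [h1, ← h]
  exact Subtype.prop _

end int

end DT.F4
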