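import Pool.Agent.Lib.DT.F4.Bas

/-!
# Theorem DT, part F: the isogeny `𝔭` in the parameter `T`

Parameters: `s = a + 6`, `s³ c = a² + 3 a + 9`, `a³ c' = 1` (`a = Al(𝔭)`, `c = 1/Al(1)³`, `c' = 1/Al(𝔭)³`).
The curve `c` and its isogenous curve `c'`; the multiplier is `3 a / s`.
-/

set_option autoImplicit false

namespace DT.F4

open PowerSeries DI.F4

/-- the relations -/
structure Par {R : Type} [CommRing R] (a s c c' : R) : Prop where
  hs : s = a + 6
  hc : s ^ 3 * c = a ^ 2 + 3 * a + 9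
  hc' : a ^ 3 * c' = 1

theorem Par.map {R S : Type} [CommRing R] [CommRing S] (φ : R →+* S) {a s c c' : R}
    (hp : Par a s c c') : Par (φ a) (φ s) (φ c) (φ c') := by
  have h1 := congrArg φ hp.hs
  have h2 := congrArg φ hp.hc
  have h3 := congrArg φ hp.hc'
  constructor
  · simpa only [map_mul, map_pow, map_add, map_one, map_ofNat] using h1
  · simpa only [map_mul, map_pow, map_add, map_one, map_ofNat] using h2
  · simpa only [map_mul, map_pow, map_add, map_one, map_ofNat] using h3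

/-! ## The algebra -/

section alg

variable {A : Type} [CommRing A]

theorem alg_I1 {a s c v : A} (hs : s = a + 6) (hc : s ^ 3 * c = a ^ 2 + 3 * a + 9) :
    4 * (s ^ 2 + 3 * (a + 3) * v + 3 * s * c * v ^ 2) ^ 3 +
      v * (a * (s ^ 2 + 3 * (a + 3) * v + 3 * s * c * v ^ 2) * (3 + s * c * v) +
        v * (3 + s * c * v) ^ 3) ^ 2 =
    s ^ 4 * (s + s ^ 2 * c * v + (2 * a + 3) * c * v ^ 2 + s * c ^ 2 * v ^ 3) ^ 2 *
      (4 + v * (1 + c * v) ^ 2) := by
  have ha : a = s - 6 := by rw [hs]; ring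
  subst ha
  have hc2 : s ^ 3 * c - (s ^ 2 - 9 * s + 27) = 0 := by
    rw [hc]
    ring
  linear_combination ((-2) * v ^ 7 * s ^ 4 * c ^ 4 + (-6) * v ^ 6 * s ^ 4 * c ^ 3 +
    (-1) * v ^ 5 * s ^ 5 * c ^ 3 + (-5) * v ^ 5 * s ^ 4 * c ^ 2 + (-27) * v ^ 5 * s ^ 3 * c ^ 2 +
    135 * v ^ 5 * s ^ 2 * c ^ 2 + (-2) * v ^ 4 * s ^ 5 * c ^ 2 + (-10) * v ^ 4 * s ^ 4 * c ^ 2 +
    (-54) * v ^ 4 * s ^ 3 * c + 324 * v ^ 4 * s ^ 2 * c + (-486) * v ^ 4 * s * c +
    (-32) * v ^ 3 * s ^ 4 * c + 99 * v ^ 3 * s ^ 3 * c + (-81) * v ^ 3 * s ^ 2 + 621 * v ^ 3 * s +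
    (-1215) * v ^ 3 + (-4) * v ^ 2 * s ^ 5 * c + (-54) * v ^ 2 * s ^ 3 + 216 * v ^ 2 * s ^ 2 +
    (-8) * v * s ^ 4) * hc2

variable [IsDomain A]

theorem alg_curve {F G x w v a s c c' m n1 n2 d e : A} (he : e ≠ 0) (hz : v = x ^ 2 * w)
    (hF : F * e = 2 * a * x * n1 * d) (hG : G * e = 2 * a ^ 3 * x * v * d ^ 3)
    (h0 : e = s ^ 2 * m * n2 + a * x * n1 * d + x * v * d ^ 3) (hc' : a ^ 3 * c' = 1)
    (hm : w * m ^ 2 = 4 + v * (1 + c * v) ^ 2)
    (h1 : 4 * n1 ^ 3 + v * (a * n1 * d + v * d ^ 3) ^ 2 =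
      s ^ 4 * n2 ^ 2 * (4 + v * (1 + c * v) ^ 2)) :
    G = F ^ 3 + F * G + c' * G ^ 2 := by
  have k1 : v * (e * (e - 2 * a * x * n1 * d - 2 * x * v * d ^ 3)) = 4 * x ^ 2 * n1 ^ 3 := by
    have k2 : e * (e - 2 * a * x * n1 * d - 2 * x * v * d ^ 3) =
        s ^ 4 * m ^ 2 * n2 ^ 2 - x ^ 2 * (a * n1 * d + v * d ^ 3) ^ 2 := by
      rw [h0]
      ring
    rw [k2]
    linear_combination s ^ 4 * n2 ^ 2 * x ^ 2 * hm - x ^ 2 * h1 +
      (s ^ 4 * m ^ 2 * n2 ^ 2) * hz
  apply mul_right_cancel₀ (pow_ne_zero 3 he)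
  have k3 : F ^ 3 * e ^ 3 = (2 * a * x * n1 * d) ^ 3 := by
    rw [← mul_pow, hF]
  have k4 : F * G * e ^ 3 = (2 * a * x * n1 * d) * (2 * a ^ 3 * x * v * d ^ 3) * e := by
    rw [← hF, ← hG]
    ring
  have k5 : c' * G ^ 2 * e ^ 3 = c' * (2 * a ^ 3 * x * v * d ^ 3) ^ 2 * e := by
    rw [← hG]
    ring
  have k6 : G * e ^ 3 = (2 * a ^ 3 * x * v * d ^ 3) * e ^ 2 := by
    rw [← hG]
    ring
  rw [add_mul, add_mul, k3, k4, k5, k6]
  linear_combination (2 * a ^ 3 * x * d ^ 3) * k1 -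
    (4 * a ^ 3 * x ^ 2 * v ^ 2 * d ^ 6 * e) * hc'

/-- the differential -/
theorem alg_der {F G F' G' x w v v' a s c c' m n1 n2 d e om p : A} (he : e ≠ 0)
    (hM : a ^ 2 * (v * d ^ 2) ^ 2 ≠ 0) (hs0 : s ≠ 0) (hp : p * s = 3 * a)
    (hz : v = x ^ 2 * w) (hs : s = a + 6) (hc' : a ^ 3 * c' = 1)
    (hn1 : n1 = s ^ 2 + 3 * (a + 3) * v + 3 * s * c * v ^ 2)
    (hn2 : n2 = s + s ^ 2 * c * v + (2 * a + 3) * c * v ^ 2 + s * c ^ 2 * v ^ 3)
    (hd : d = 3 + s * c * v)
    (hv' : v' = x * w * m * om)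
    (hF : F * e = 2 * a * x * n1 * d) (hG : G * e = 2 * a ^ 3 * x * v * d ^ 3)
    (h0 : e = s ^ 2 * m * n2 + a * x * n1 * d + x * v * d ^ 3)
    (hD : F * (a ^ 2 * (v * d ^ 2)) = G * n1 →
      F' * (a ^ 2 * (v * d ^ 2)) + F * (a ^ 2 * (v' * d * (3 + 3 * (s * c * v)))) =
        G' * n1 + G * ((3 * (a + 3) + 6 * s * c * v) * v')) :
    F' * G - F * G' = (F - 2 + c' * G) * G * (p * om) := by
  have i2 : F * (a ^ 2 * (v * d ^ 2)) = G * n1 := by
    apply mul_right_cancel₀ he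
    linear_combination (a ^ 2 * (v * d ^ 2)) * hF - n1 * hG
  have i3 := hD i2
  have f1 : (F - 2 + c' * G) * e = -(2 * s ^ 2 * m * n2) := by
    linear_combination hF + c' * hG - 2 * h0 + (2 * x * v * d ^ 3) * hc'
  have i4 : (F' * G - F * G') * (a ^ 2 * (v * d ^ 2) ^ 2) =
      G ^ 2 * ((3 * (a + 3) + 6 * s * c * v) * v' * (v * d ^ 2) -
        n1 * (v' * d * (3 + 3 * (s * c * v)))) := by
    linear_combination (G * (v * d ^ 2)) * i3 -
      (G * (v' * d * (3 + 3 * (s * c * v))) + G' * (v * d ^ 2)) * i2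
  have i5 : (3 * (a + 3) + 6 * s * c * v) * v' * (v * d ^ 2) -
        n1 * (v' * d * (3 + 3 * (s * c * v))) = -(3 * s * v' * d * n2) := by
    rw [hn1, hn2, hd, hs]
    ring
  rw [i5] at i4
  apply mul_right_cancel₀ (mul_ne_zero (mul_ne_zero hM he) hs0)
  calc (F' * G - F * G') * (a ^ 2 * (v * d ^ 2) ^ 2 * e * s) =
      (F' * G - F * G') * (a ^ 2 * (v * d ^ 2) ^ 2) * (e * s) := by ring
    _ = G ^ 2 * (-(3 * s * v' * d * n2)) * (e * s) := by rw [i4]
    _ = -(3 * s ^ 2 * v' * d * n2 * G * (G * e)) := by ring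
    _ = -(3 * s ^ 2 * (x * w * m * om) * d * n2 * G * (2 * a ^ 3 * x * v * d ^ 3)) := by
        rw [hG, hv']
    _ = -(3 * s ^ 2 * m * om * n2 * G * (2 * a ^ 3 * (x ^ 2 * w) * v * d ^ 4)) := by ring
    _ = ((F - 2 + c' * G) * e) * (p * s) * (G * om * (a ^ 2 * (v * d ^ 2) ^ 2)) := by
        rw [← hz, f1, hp]
        ring
    _ = (F - 2 + c' * G) * G * (p * om) * (a ^ 2 * (v * d ^ 2) ^ 2 * e * s) := by ring

end alg

/-! ## The series -/

section ser

variable {R : Type} [CommRing R] (a s c : R)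

/-- `v = X² w = W/T` -/
noncomputable def vS : R⟦X⟧ := X ^ 2 * wS c

/-- `m = 2 - X - c X v` -/
noncomputable def mS : R⟦X⟧ := 2 - X * (1 + C c * vS c)

/-- `n1` -/
noncomputable def nS : R⟦X⟧ := C s ^ 2 + 3 * (C a + 3) * vS c + 3 * C s * C c * vS c ^ 2

/-- `n2` -/
noncomputable def oS : R⟦X⟧ :=
  C s + C s ^ 2 * C c * vS c + (2 * C a + 3) * C c * vS c ^ 2 + C s * C c ^ 2 * vS c ^ 3

/-- `d` -/
noncomputable def dS : R⟦X⟧ := 3 + C s * C c * vS c

/-- `e` -/
noncomputable def eS : R⟦X⟧ := C s ^ 2 * mS c * oS a s c + C a * X * nS a s c * dS s c +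
  X * vS c * dS s c ^ 3

theorem cc_two : constantCoeff (2 : R⟦X⟧) = 2 := map_ofNat _ _

theorem cc_three : constantCoeff (3 : R⟦X⟧) = 3 := map_ofNat _ _

theorem vS_const : constantCoeff (vS c) = 0 := by
  simp [vS]

theorem dS_const : constantCoeff (dS s c) = 3 := by
  rw [dS, map_add, map_mul, vS_const, mul_zero, add_zero, cc_three]

theorem nS_const : constantCoeff (nS a s c) = s ^ 2 := by
  simp [nS, vS_const]

theorem oS_const : constantCoeff (oS a s c) = s := by
  simp [oS, vS_const]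

theorem mS_const : constantCoeff (mS c) = 2 := by
  rw [mS, map_sub, map_mul, constantCoeff_X, zero_mul, sub_zero, cc_two]

theorem eS_const : constantCoeff (eS a s c) = 2 * s ^ 3 := by
  rw [eS, map_add, map_add, map_mul, map_mul, map_mul, map_mul, map_mul, map_mul, map_mul,
    map_pow, constantCoeff_C, mS_const, oS_const, constantCoeff_X, constantCoeff_C]
  ring

theorem wS_eq' : wS c = 1 + X * wS c * (1 + C c * vS c) := by
  have h1 := wS_eq c
  unfold vS
  linear_combination h1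

theorem mS_sq : wS c * mS c ^ 2 = 4 + vS c * (1 + C c * vS c) ^ 2 := by
  have h1 := wS_eq' c
  have hv : vS c = X ^ 2 * wS c := rfl
  have hm : mS c = 2 - X * (1 + C c * vS c) := rfl
  rw [hm]
  linear_combination 4 * h1 - (1 + C c * vS c) ^ 2 * hv

/-- `v' = X w m om` -/
theorem d_vS : derivative R (vS c) = X * wS c * mS c * omS c := by
  have h1 := wDer c
  have h2 := PS_omS c
  have h3 := wS_eq c
  have hX : derivative R (X : R⟦X⟧) = 1 := derivative_X
  have e1 : derivative R (vS c) = X * (2 * wS c + X * derivative R (wS c)) := by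
    rw [vS, Derivation.leibniz, Derivation.leibniz_pow, hX]
    simp only [smul_eq_mul, nsmul_eq_mul]
    push_cast
    ring
  rw [e1]
  unfold PS at h2
  unfold mS vS
  linear_combination X * h1 + X * wS c * h2 - (3 * X * omS c) * h3

end ser

section field

variable {L : Type} [Field L] (a s c : L)

/-- the parameter `T'` of the isogenous curve as a series in the parameter `T` -/
noncomputable def FS : L⟦X⟧ := 2 * C a * X * nS a s c * dS s c * (eS a s c)⁻¹

/-- `W'` -/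
noncomputable def GS : L⟦X⟧ := 2 * C a ^ 3 * X * vS c * dS s c ^ 3 * (eS a s c)⁻¹

theorem FS_const : constantCoeff (FS a s c) = 0 := by
  simp [FS]

theorem GS_const : constantCoeff (GS a s c) = 0 := by
  simp [GS]

variable {a s c}

theorem eS_ne [CharZero L] (hs : s ≠ 0) : eS a s c ≠ 0 := by
  intro h1
  have h2 := eS_const a s c
  rw [h1, map_zero] at h2
  exact mul_ne_zero two_ne_zero (pow_ne_zero 3 hs) h2.symm

theorem eS_mul [CharZero L] (hs : s ≠ 0) : eS a s c * (eS a s c)⁻¹ = 1 :=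
  PowerSeries.mul_inv_cancel _ (by
    rw [eS_const]
    exact mul_ne_zero two_ne_zero (pow_ne_zero 3 hs))

theorem FS_eS [CharZero L] (hs : s ≠ 0) :
    FS a s c * eS a s c = 2 * C a * X * nS a s c * dS s c := by
  have h1 := eS_mul (a := a) (c := c) hs
  unfold FS
  linear_combination (2 * C a * X * nS a s c * dS s c) * h1

theorem GS_eS [CharZero L] (hs : s ≠ 0) :
    GS a s c * eS a s c = 2 * C a ^ 3 * X * vS c * dS s c ^ 3 := by
  have h1 := eS_mul (a := a) (c := c) hs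
  unfold GS
  linear_combination (2 * C a ^ 3 * X * vS c * dS s c ^ 3) * h1

theorem FG_curve [CharZero L] {c' : L} (hs : s ≠ 0) (hp : Par a s c c') :
    CEq c' (FS a s c) (GS a s c) := by
  have h1 := congrArg (C (R := L)) hp.hs
  have h2 := congrArg (C (R := L)) hp.hc
  have h3 := congrArg (C (R := L)) hp.hc'
  simp only [map_add, map_mul, map_pow, map_ofNat, map_one] at h1 h2 h3
  exact alg_curve (eS_ne hs) (show vS c = X ^ 2 * wS c from rfl) (FS_eS hs) (GS_eS hs) rfl h3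
    (mS_sq c) (alg_I1 (v := vS c) h1 h2)

theorem coeff_one_FS [CharZero L] (hs : s ≠ 0) : coeff 1 (FS a s c) = 3 * a / s := by
  have h1 := congrArg (coeff 1) (FS_eS (a := a) (c := c) hs)
  have h2 : coeff 1 (FS a s c * eS a s c) = coeff 1 (FS a s c) * (2 * s ^ 3) := by
    rw [coeff_mul, Finset.Nat.antidiagonal_succ]
    simp [FS_const, eS_const]
  have h3 : coeff 1 (2 * C a * X * nS a s c * dS s c) = 2 * a * s ^ 2 * 3 := by
    have e1 : 2 * C a * X * nS a s c * dS s c = X * (2 * C a * nS a s c * dS s c) := by ring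
    have e2 := coeff_succ_X_mul 0 (2 * C a * nS a s c * dS s c)
    rw [zero_add, coeff_zero_eq_constantCoeff_apply] at e2
    rw [e1, e2, map_mul, map_mul, map_mul, cc_two, constantCoeff_C, nS_const, dS_const]
  rw [h2, h3] at h1
  field_simp
  have h4 : s ^ 2 ≠ 0 := pow_ne_zero 2 hs
  apply mul_left_cancel₀ (mul_ne_zero (two_ne_zero (α := L)) h4)
  linear_combination h1

theorem FG_diff [CharZero L] {c' : L} (hs : s ≠ 0) (ha : a ≠ 0) (hp : Par a s c c') :
    derivative L (FS a s c) * GS a s c - FS a s c * derivative L (GS a s c) =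
      (FS a s c - 2 + C c' * GS a s c) * GS a s c * derivative L (C (3 * a / s) * lgS c) := by
  have h1 := congrArg (C (R := L)) hp.hs
  have h3 := congrArg (C (R := L)) hp.hc'
  simp only [map_add, map_mul, map_pow, map_ofNat, map_one] at h1 h3
  have hw0 : wS c ≠ 0 := by
    intro h
    have h2 := wS_const c
    rw [h, map_zero] at h2
    exact zero_ne_one h2
  have hv0 : vS c ≠ 0 := mul_ne_zero (pow_ne_zero 2 X_ne_zero) hw0
  have hd0 : dS s c ≠ 0 := by
    intro h
    have h2 := dS_const s c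
    rw [h, map_zero] at h2
    exact three_ne_zero h2.symm
  have hCa : (C a : L⟦X⟧) ≠ 0 := (map_ne_zero_iff _ C_injective).2 ha
  have hCs : (C s : L⟦X⟧) ≠ 0 := (map_ne_zero_iff _ C_injective).2 hs
  have e1 : derivative L (C (3 * a / s) * lgS c) = C (3 * a / s) * omS c := by
    rw [Derivation.leibniz, derivative_C, d_lgS]
    simp only [smul_eq_mul, mul_zero, add_zero]
  rw [e1]
  have hps : (C (3 * a / s) : L⟦X⟧) * C s = 3 * C a := by
    rw [← map_mul, div_mul_cancel₀ _ hs, map_mul, map_ofNat]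
  have dv := d_vS c
  refine alg_der (n1 := nS a s c) (n2 := oS a s c) (d := dS s c) (e := eS a s c) (m := mS c)
    (x := X) (w := wS c) (v := vS c) (v' := derivative L (vS c)) (s := C s) (a := C a)
    (c := C c) (eS_ne hs) ?_ hCs hps rfl h1 h3 rfl rfl rfl dv (FS_eS hs) (GS_eS hs) rfl ?_
  · exact mul_ne_zero (pow_ne_zero 2 hCa) (pow_ne_zero 2 (mul_ne_zero hv0 (pow_ne_zero 2 hd0)))
  · intro h
    have h4 := congrArg (derivative L) h
    have hX : derivative L (X : L⟦X⟧) = 1 := derivative_X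
    have h3' : derivative L (3 : L⟦X⟧) = 0 := by
      rw [← map_ofNat (C (R := L)), derivative_C]
    have h6' : derivative L (6 : L⟦X⟧) = 0 := by
      rw [← map_ofNat (C (R := L)), derivative_C]
    have en : derivative L (nS a s c) = (3 * (C a + 3) + 6 * C s * C c * vS c) *
        derivative L (vS c) := by
      unfold nS
      simp only [map_add, Derivation.leibniz, Derivation.leibniz_pow, derivative_C, h3',
        smul_eq_mul, nsmul_eq_mul]
      push_cast
      ring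
    have ed : derivative L (dS s c) = C s * C c * derivative L (vS c) := by
      unfold dS
      simp only [map_add, Derivation.leibniz, derivative_C, h3', smul_eq_mul]
      ring
    simp only [Derivation.leibniz, Derivation.leibniz_pow, derivative_C, smul_eq_mul,
      nsmul_eq_mul, en, ed] at h4
    push_cast at h4
    have hd : dS s c = 3 + C s * C c * vS c := rfl
    linear_combination h4 - (FS a s c * C a ^ 2 * derivative L (vS c) * dS s c) * hd

/-- **the isogeny**: `lg'(F) = (3 a / s) lg` -/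
theorem iso [CharZero L] {c' : L} (hs : s ≠ 0) (ha : a ≠ 0) (hp : Par a s c c') :
    cs (lgS c') (FS a s c) = C (3 * a / s) * lgS c := by
  refine (lg_of_diff (FS_const a s c) (GS_const a s c) ?_ ?_ (FG_curve hs hp)
    (FG_diff hs ha hp)).1
  · rw [map_mul, lgS_const, mul_zero]
  · intro h
    have h1 := coeff_one_FS (a := a) (c := c) hs
    rw [h, map_zero] at h1
    exact div_ne_zero (mul_ne_zero three_ne_zero ha) hs h1.symm

end field

end DT.F4
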